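import Pool.Agent.Helper95.LN.Stmts

/-! Row AED of the sheet LN (MP_56acfd_mp): almost everywhere all points are different. -/

set_option autoImplicit false

namespace Pool.Agent.Helper55.LN

open MeasureTheory Filter Pool.Agent.Helper95.PW Pool.Agent.Helper95.LN

theorem aed_nr {v : R3} (h : nr v = 0) : v = 0 := by
  unfold nr at h
  have h0 : 0 ≤ v 0 ^ 2 + v 1 ^ 2 + v 2 ^ 2 := by positivity
  rw [Real.sqrt_eq_zero h0] at h
  have a0 : v 0 = 0 := by nlinarith [sq_nonneg (v 0), sq_nonneg (v 1), sq_nonneg (v 2)]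
  have a1 : v 1 = 0 := by nlinarith [sq_nonneg (v 0), sq_nonneg (v 1), sq_nonneg (v 2)]
  have a2 : v 2 = 0 := by nlinarith [sq_nonneg (v 0), sq_nonneg (v 1), sq_nonneg (v 2)]
  funext i
  fin_cases i
  · exact a0
  · exact a1
  · exact a2

theorem aed_pair {n : ℕ} (k l : Fin n) (hkl : k ≠ l) :
    (volume : Measure (Cf n)) {x | x k = x l} = 0 := by
  set L : Cf n →ₗ[ℝ] R3 := LinearMap.proj (R := ℝ) (φ := fun _ : Fin n => R3) k -
    LinearMap.proj (R := ℝ) (φ := fun _ : Fin n => R3) l with hL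
  have hs : (LinearMap.ker L : Submodule ℝ (Cf n)) ≠ ⊤ := by
    intro h
    have h1 : (Pi.single k (fun _ => (1 : ℝ)) : Cf n) ∈ LinearMap.ker L := by
      rw [h]
      exact Submodule.mem_top
    rw [LinearMap.mem_ker, hL, LinearMap.sub_apply, LinearMap.proj_apply, LinearMap.proj_apply,
      Pi.single_eq_same, Pi.single_eq_of_ne (Ne.symm hkl), sub_zero] at h1
    exact one_ne_zero (congrFun h1 0)
  have i1 : (volume : Measure R3).IsAddHaarMeasure := isAddHaarMeasure_volume_pi (Fin 3)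
  have i2 : (volume : Measure (Cf n)).IsAddHaarMeasure :=
    Measure.pi.isAddHaarMeasure (fun _ : Fin n => (volume : Measure R3))
  have h2 := Measure.addHaar_submodule (volume : Measure (Cf n)) (LinearMap.ker L) hs
  refine measure_mono_null (fun x hx => ?_) h2
  rw [SetLike.mem_coe, LinearMap.mem_ker, hL, LinearMap.sub_apply, LinearMap.proj_apply,
    LinearMap.proj_apply, sub_eq_zero]
  exact hx

theorem aed_pt {n : ℕ} (k : Fin n) (c : R3) :
    (volume : Measure (Cf n)) {x | x k = c} = 0 := by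
  rw [volume_pi]
  exact Measure.pi_hyperplane (α := fun _ : Fin n => R3) (fun _ => volume) k c

theorem AED : ST_AED := by
  intro n M X
  have h1 : ∀ k l : Fin n, k ≠ l → ∀ᵐ x : Cf n, nr (x k - x l) ≠ 0 := by
    intro k l hkl
    rw [ae_iff]
    refine measure_mono_null (fun x hx => ?_) (aed_pair k l hkl)
    have hx : nr _ = 0 := not_not.1 hx
    exact sub_eq_zero.1 (aed_nr hx)
  have h2 : ∀ (k : Fin n) (j : Fin M), ∀ᵐ x : Cf n, nr (x k - X j) ≠ 0 := by
    intro k j
    rw [ae_iff]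
    refine measure_mono_null (fun x hx => ?_) (aed_pt k (X j))
    have hx : nr _ = 0 := not_not.1 hx
    exact sub_eq_zero.1 (aed_nr hx)
  have h3 : ∀ᵐ x : Cf n, ∀ k l : Fin n, k ≠ l → nr (x k - x l) ≠ 0 := by
    rw [ae_all_iff]
    intro k
    rw [ae_all_iff]
    intro l
    by_cases hkl : k = l
    · exact ae_of_all _ fun x h => absurd hkl h
    · filter_upwards [h1 k l hkl] with x hx _ using hx
  have h4 : ∀ᵐ x : Cf n, ∀ (k : Fin n) (j : Fin M), nr (x k - X j) ≠ 0 := by
    rw [ae_all_iff]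
    intro k
    rw [ae_all_iff]
    intro j
    exact h2 k j
  filter_upwards [h3, h4] with x hx hy using ⟨hx, hy⟩

end Pool.Agent.Helper55.LN
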